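import Pool.Agent.P8H8.EV.Stm

/-!
# EV/WPDE: the complex derivatives of the solution
-/

set_option autoImplicit false

open MeasureTheory Set Filter Metric
open scoped Topology ContDiff ComplexConjugate

namespace Pool.Agent.P8H57.EV

open Pool.Agent.TH298.Sch (SC dd Lr)
open Pool.Agent.R227.SA (la Dat)
open Pool.Agent.P8H8.SV Pool.Agent.P8H8.EV

/-- directional derivative -/
noncomputable def A (h : ℂ) (f : ℂ → ℂ) (z : ℂ) : ℂ := fderiv ℝ f z h

lemma A_congr {f g : ℂ → ℂ} {z : ℂ} (h : f =ᶠ[𝓝 z] g) (k : ℂ) : A k f =ᶠ[𝓝 z] A k g := by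
  filter_upwards [h.eventually_nhds] with y hy
  unfold A
  rw [Filter.EventuallyEq.fderiv_eq hy]

lemma A_sm {f : ℂ → ℂ} {z : ℂ} (hf : ContDiffAt ℝ ∞ f z) (h : ℂ) : ContDiffAt ℝ ∞ (A h f) z := by
  have h1 : ContDiffAt ℝ ∞ (fderiv ℝ f) z := hf.fderiv_right (by norm_cast)
  exact h1.clm_apply contDiffAt_const

lemma sm_diff {f : ℂ → ℂ} {z : ℂ} (hf : ContDiffAt ℝ ∞ f z) : DifferentiableAt ℝ f z :=
  hf.differentiableAt (by norm_num)

lemma A_comm {f : ℂ → ℂ} {z : ℂ} (hf : ContDiffAt ℝ ∞ f z) (h k : ℂ) :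
    A h (A k f) z = A k (A h f) z := by
  have h1 : ContDiffAt ℝ ∞ (fderiv ℝ f) z := hf.fderiv_right (by norm_cast)
  have h2 : DifferentiableAt ℝ (fderiv ℝ f) z := h1.differentiableAt (by norm_num)
  have h3 : ∀ a b : ℂ, A a (A b f) z = fderiv ℝ (fderiv ℝ f) z a b := by
    intro a b
    have h4 : HasFDerivAt (fun y => fderiv ℝ f y b) ((fderiv ℝ (fderiv ℝ f) z).flip b) z := by
      have := h2.hasFDerivAt.clm_apply (hasFDerivAt_const b z)
      rw [ContinuousLinearMap.comp_zero, zero_add] at this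
      exact this
    unfold A
    change fderiv ℝ (fun y => fderiv ℝ f y b) z a = _
    rw [h4.fderiv]
    rfl
  rw [h3, h3]
  have h5 : IsSymmSndFDerivAt ℝ f z := by
    apply ContDiffAt.isSymmSndFDerivAt (n := ∞) hf
    simp only [minSmoothness_of_isRCLikeNormedField]
    norm_cast
  exact h5 h k

lemma A_lin {f g : ℂ → ℂ} {z : ℂ} (hf : ContDiffAt ℝ ∞ f z) (hg : ContDiffAt ℝ ∞ g z) (a b h : ℂ) :
    A h (fun y => a * f y + b * g y) z = a * A h f z + b * A h g z := by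
  have h1 := ((sm_diff hf).hasFDerivAt.const_mul a).add ((sm_diff hg).hasFDerivAt.const_mul b)
  unfold A
  have h2 : fderiv ℝ (fun y => a * f y + b * g y) z = _ := h1.fderiv
  rw [h2]
  simp [smul_eq_mul]

/-- the Laplacian -/
noncomputable def La (f : ℂ → ℂ) (z : ℂ) : ℂ := A 1 (A 1 f) z + A Complex.I (A Complex.I f) z

lemma dz_eq (f : ℂ → ℂ) : dz f = fun y => (1 / 2 : ℂ) * A 1 f y + (-Complex.I / 2) * A Complex.I f y := by
  funext y
  unfold dz A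
  ring

lemma dz_sm {f : ℂ → ℂ} {z : ℂ} (hf : ContDiffAt ℝ ∞ f z) : ContDiffAt ℝ ∞ (dz f) z := by
  rw [dz_eq]
  exact (contDiffAt_const.mul (A_sm hf 1)).add (contDiffAt_const.mul (A_sm hf Complex.I))

/-- `4 ∂̄ ∂ = Δ` -/
lemma dzb_dz {f : ℂ → ℂ} {z : ℂ} (hf : ContDiffAt ℝ ∞ f z) : dzb (dz f) z = La f z / 4 := by
  have h1 : ∀ h, A h (dz f) z = (1 / 2 : ℂ) * A h (A 1 f) z + (-Complex.I / 2) * A h (A Complex.I f) z := by
    intro h
    rw [dz_eq]
    exact A_lin (A_sm hf 1) (A_sm hf Complex.I) _ _ h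
  have h2 : dzb (dz f) z = (A 1 (dz f) z + Complex.I * A Complex.I (dz f) z) / 2 := rfl
  rw [h2, h1, h1, A_comm hf 1 Complex.I]
  unfold La
  linear_combination (-1 / 4 * A Complex.I (A Complex.I f) z) * Complex.I_sq

/-- `Δ` commutes with `∂` -/
lemma La_dz {f : ℂ → ℂ} {z : ℂ} (hf : ∀ᶠ y in 𝓝 z, ContDiffAt ℝ ∞ f y) :
    La (dz f) z = (1 / 2 : ℂ) * A 1 (La f) z + (-Complex.I / 2) * A Complex.I (La f) z := by
  have hz := hf.self_of_nhds
  have h1 : ∀ h, A h (A h (dz f)) z = (1 / 2 : ℂ) * A 1 (A h (A h f)) z +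
      (-Complex.I / 2) * A Complex.I (A h (A h f)) z := by
    intro h
    have e1 : A h (dz f) =ᶠ[𝓝 z] fun y => (1 / 2 : ℂ) * A 1 (A h f) y +
        (-Complex.I / 2) * A Complex.I (A h f) y := by
      filter_upwards [hf] with y hy
      rw [dz_eq, A_lin (A_sm hy 1) (A_sm hy Complex.I) _ _ h, A_comm hy h 1, A_comm hy h Complex.I]
    have e2 := (A_congr e1 h).self_of_nhds
    rw [e2, A_lin (A_sm (A_sm hz h) 1) (A_sm (A_sm hz h) Complex.I) _ _ h, A_comm (A_sm hz h) h 1,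
      A_comm (A_sm hz h) h Complex.I]
  have h2 : ∀ k, A k (La f) z = A k (A 1 (A 1 f)) z + A k (A Complex.I (A Complex.I f)) z := by
    intro k
    have := A_lin (A_sm (A_sm hz 1) 1) (A_sm (A_sm hz Complex.I) Complex.I) 1 1 k
    simp only [one_mul] at this
    exact this
  have h3 : La (dz f) z = A 1 (A 1 (dz f)) z + A Complex.I (A Complex.I (dz f)) z := rfl
  rw [h3, h1, h1, h2, h2]
  ring

/-- the step -/
lemma step {Ω : Set ℂ} (hΩ : IsOpen Ω) {lam : ℝ} {f : ℂ → ℂ} (hf : ∀ z ∈ Ω, ContDiffAt ℝ ∞ f z)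
    (h : ∀ z ∈ Ω, La f z = -lam * f z) :
    (∀ z ∈ Ω, ContDiffAt ℝ ∞ (dz f) z) ∧ ∀ z ∈ Ω, La (dz f) z = -lam * dz f z := by
  refine ⟨fun z hz => dz_sm (hf z hz), fun z hz => ?_⟩
  have hn : ∀ᶠ y in 𝓝 z, y ∈ Ω := hΩ.mem_nhds hz
  rw [La_dz (hn.mono fun y hy => hf y hy)]
  have e1 : La f =ᶠ[𝓝 z] fun y => (-lam : ℂ) * f y + 0 * f y := by
    filter_upwards [hn] with y hy
    rw [h y hy]
    ring
  have e2 : ∀ k, A k (La f) z = -lam * A k f z := by
    intro k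
    rw [(A_congr e1 k).self_of_nhds, A_lin (hf z hz) (hf z hz)]
    ring
  rw [e2, e2, dz_eq]
  ring

lemma ofReal_A {g : ℂ → ℝ} {z : ℂ} (hg : DifferentiableAt ℝ g z) (h : ℂ) :
    A h (fun y => ((g y : ℝ) : ℂ)) z = ((fderiv ℝ g z h : ℝ) : ℂ) := by
  have h1 : HasFDerivAt (fun y => ((g y : ℝ) : ℂ)) (Complex.ofRealCLM.comp (fderiv ℝ g z)) z :=
    Complex.ofRealCLM.hasFDerivAt.comp z hg.hasFDerivAt
  unfold A
  rw [h1.fderiv]
  rfl

/-- the base -/
lemma base {Ω : Set ℂ} {lam c : ℝ} {v : ℂ → ℝ} (D : Dat Ω lam c v) :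
    ∀ z ∈ Ω, ContDiffAt ℝ ∞ (W c v 0) z ∧ La (W c v 0) z = -lam * W c v 0 z ∧
      dzb (W c v 0) z = conj (W c v 1 z) := by
  intro z hz
  obtain ⟨r, hr, U, hU, -, h⟩ := D.loc z hz
  have e0 : W c v 0 =ᶠ[𝓝 z] fun y => ((U y : ℝ) : ℂ) := by
    filter_upwards [ball_mem_nhds z hr] with y hy
    simp only [W, (h y hy).1]
  have hUs : ∀ y, ContDiffAt ℝ ∞ (fun y => ((U y : ℝ) : ℂ)) y := fun y =>
    Complex.ofRealCLM.contDiff.contDiffAt.comp y hU.sm.contDiffAt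
  have hUA : ∀ k, A k (fun y => ((U y : ℝ) : ℂ)) = fun y => ((dd k U y : ℝ) : ℂ) := by
    intro k
    funext y
    exact ofReal_A (hU.diff y) k
  refine ⟨(hUs z).congr_of_eventuallyEq e0, ?_, ?_⟩
  · have e1 : ∀ k, A k (A k (W c v 0)) z = ((dd k (dd k U) z : ℝ) : ℂ) := by
      intro k
      rw [(A_congr (A_congr e0 k) k).self_of_nhds, hUA]
      exact ofReal_A ((Pool.Agent.TH298.Sch.dd_sc hU k).diff z) k
    have e2 : La (W c v 0) z = ((la U z : ℝ) : ℂ) := by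
      unfold La la
      rw [e1, e1]
      push_cast
      ring
    rw [e2, (h z (mem_ball_self hr)).2, e0.self_of_nhds]
    push_cast
    ring
  · have e1 : ∀ k, A k (W c v 0) z = ((dd k U z : ℝ) : ℂ) := by
      intro k
      rw [(A_congr e0 k).self_of_nhds, hUA]
    have e2 : dzb (W c v 0) z = (A 1 (W c v 0) z + Complex.I * A Complex.I (W c v 0) z) / 2 := rfl
    have e3 : W c v 1 z = (A 1 (W c v 0) z - Complex.I * A Complex.I (W c v 0) z) / 2 := rfl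
    rw [e2, e3, e1, e1]
    simp only [map_div₀, map_sub, map_mul, Complex.conj_ofReal, Complex.conj_I, map_ofNat]
    ring
/-- **EV/WPDE.** -/
theorem wpde : S_WPDE := by
  intro Ω lam c v hΩ D n
  have key : ∀ n : ℕ, (∀ z ∈ Ω, ContDiffAt ℝ ∞ (W c v n) z) ∧ ∀ z ∈ Ω, La (W c v n) z = -lam * W c v n z := by
    intro n
    induction n with
    | zero => exact ⟨fun z hz => (base D z hz).1, fun z hz => (base D z hz).2.1⟩
    | succ n ih => exact step hΩ ih.1 ih.2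
  refine ⟨fun z hz => ((key n).1 z hz).contDiffWithinAt, fun z hz => ?_, fun z hz => (base D z hz).2.2,
    fun z hz => (key n).2 z hz⟩
  change dzb (dz (W c v n)) z = _
  rw [dzb_dz ((key n).1 z hz), (key n).2 z hz]
  ring

end Pool.Agent.P8H57.EV
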